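import Pool.Agent.K3h64.LV.Cex

set_option autoImplicit false

/-!
# MP_4d0c5f_nt: analytic functions separate Liouville matrices

For every `n ≥ 2` and all sequences `f k`, `g k` of real-analytic functions on an open interval around `0`
which satisfy the conditions (i) and (ii) of the problem and whose Taylor series at `0` have a
common disc of convergence, there is a Liouville matrix `A` of size `n` such that all `f k (A)` are
Liouville matrices and no `g k (A)` is one. The matrix is found in the family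
`x E₁ + y E₂ + a E₃` (`E₁, E₂, E₃` orthogonal idempotents, the first two of rank one in the first
two coordinates, depending on a shape parameter `t`) by a Baire category argument in the space of the
parameters `(x, y, t)` together with the exponents' constants of all the `g k (A)`.

If the radii of convergence are allowed to tend to `0`, the question as worded has a negative answer for a
trivial reason: if all `g k (A)` are defined then `A` may be forced to be nilpotent.
-/

namespace Pool.Agent.Results.MP_4d0c5f_nt.SeparatingLiouville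

open Filter Topology

/-- An integer vector as a real vector; real vectors carry the supremum norm. -/
def toReal {n : ℕ} (q : Fin n → ℤ) : Fin n → ℝ := fun i => (q i : ℝ)

/-- Liouville matrices: (a) `A q ≠ p` for all integer vectors `q`, `p` which are not both zero;
(b) for every `N` there are integer vectors `q`, `p` with `‖q‖ ≥ 2` and `‖A q - p‖ < ‖q‖ ^ (-N)`. -/
def IsLiouville {n : ℕ} (A : Matrix (Fin n) (Fin n) ℝ) : Prop :=
  (∀ q p : Fin n → ℤ, (q ≠ 0 ∨ p ≠ 0) → A.mulVec (toReal q) ≠ toReal p) ∧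
  ∀ N : ℕ, ∃ q p : Fin n → ℤ,
    2 ≤ ‖toReal q‖ ∧ ‖A.mulVec (toReal q) - toReal p‖ < 1 / ‖toReal q‖ ^ N

/-- The Taylor coefficients at `0`. -/
noncomputable def taylor (f : ℝ → ℝ) (j : ℕ) : ℝ := iteratedDeriv j f 0 / j.factorial

/-- The matrix extension of `f` is defined at `A` and has the value `B`. -/
def Extends {n : ℕ} (f : ℝ → ℝ) (A B : Matrix (Fin n) (Fin n) ℝ) : Prop :=
  Tendsto (fun N => ∑ j ∈ Finset.range N, taylor f j • A ^ j) atTop (𝓝 B)

/-- The hypotheses of the problem: `I` is an open interval containing `0`, all `f k` and `g k` are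
real-analytic on `I`, (i) no `g k` coincides on `I` with `(a x + b) / (c x + d)`, and (ii) no `f k` coincides
on `I` with `(a g l + b) / (c g l + d)`. -/
structure Data (I : Set ℝ) (f g : ℕ → ℝ → ℝ) : Prop where
  isOpen : IsOpen I
  ordConnected : I.OrdConnected
  zero_mem : (0 : ℝ) ∈ I
  analytic_f : ∀ k, AnalyticOnNhd ℝ (f k) I
  analytic_g : ∀ k, AnalyticOnNhd ℝ (g k) I
  cond_i : ∀ k, ∀ a b c d : ℝ, (c ≠ 0 ∨ d ≠ 0) →
    ¬ ∀ x ∈ I, c * x + d ≠ 0 ∧ g k x = (a * x + b) / (c * x + d)
  cond_ii : ∀ k l, ∀ a b c d : ℝ, (c ≠ 0 ∨ d ≠ 0) →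
    ¬ ∀ x ∈ I, c * g l x + d ≠ 0 ∧ f k x = (a * g l x + b) / (c * g l x + d)

/-- There is a Liouville matrix `A` of size `n` at which all extensions are defined, with all `f k (A)`
Liouville and no `g k (A)` Liouville. -/
def Separated (n : ℕ) (f g : ℕ → ℝ → ℝ) : Prop :=
  ∃ A : Matrix (Fin n) (Fin n) ℝ, IsLiouville A ∧ ∀ k, ∃ B C : Matrix (Fin n) (Fin n) ℝ,
    Extends (f k) A B ∧ Extends (g k) A C ∧ IsLiouville B ∧ ¬ IsLiouville C

theorem result :
    (∀ n : ℕ, 2 ≤ n → ∀ (I : Set ℝ) (f g : ℕ → ℝ → ℝ), Data I f g →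
      (∃ r : ℝ, 0 < r ∧ ∀ k, ∀ x : ℝ, |x| < r →
        Summable (fun j => taylor (f k) j * x ^ j) ∧ Summable (fun j => taylor (g k) j * x ^ j)) →
      Separated n f g) ∧
    (∀ n : ℕ, 2 ≤ n → ∃ (I : Set ℝ) (f g : ℕ → ℝ → ℝ), Data I f g ∧ ¬ Separated n f g) := by
  constructor
  · intro n hn I f g hd hr
    obtain ⟨m, rfl⟩ := Nat.exists_eq_add_of_le hn
    obtain ⟨A, hA, h⟩ := Pool.Agent.K3h64.LV.main_pos m I hd.isOpen hd.ordConnected.isPreconnected
      hd.zero_mem f g hd.analytic_f hd.analytic_g hd.cond_i hd.cond_ii hr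
    refine ⟨A, hA, fun k => ?_⟩
    obtain ⟨B, C, h1, h2, h3, h4⟩ := h k
    exact ⟨B, C, h1.tendsto_sum_nat, h2.tendsto_sum_nat, h3, h4⟩
  · intro n hn
    obtain ⟨I, f, g, h1, h2, h3, h4, h5, h6, h7, h8⟩ := Pool.Agent.K3h64.LV.main_neg n hn
    refine ⟨I, f, g, ⟨h1, h2, h3, h4, h5, h6, h7⟩, ?_⟩
    rintro ⟨A, -, hA⟩
    obtain ⟨B, C, k1, k2, k3, k4⟩ := hA 0
    exact h8 A (fun k => by
      obtain ⟨B', C', _, l2, _⟩ := hA k
      exact ⟨C', l2⟩) B 0 k1 k3

end Pool.Agent.Results.MP_4d0c5f_nt.SeparatingLiouville
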